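import Pool.Agent.TFJ.Stmts

set_option autoImplicit false

namespace Pool.Agent.TFJ.H65

open Pool.Agent.TFJ

open scoped BigOperators

theorem phi_iter {X H : Type} (σ : Equiv.Perm X) (φ : X → H) (hφ : ∀ x, φ (σ x) = φ x) (x : X)
    (i : ℕ) : φ (σ^[i] x) = φ x := by
  induction i with
  | zero => rfl
  | succ i ih =>
    rw [Function.iterate_succ_apply', hφ, ih]

theorem per_pos {X : Type} [Fintype X] (σ : Equiv.Perm X) (x : X) :
    0 < Function.minimalPeriod σ x := by
  obtain ⟨n, hn, h⟩ := (isOfFinOrder_iff_pow_eq_one).mp (isOfFinOrder_of_finite σ)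
  have h1 : Function.IsPeriodicPt σ n x := by
    show σ^[n] x = x
    have h2 : (σ ^ n) x = x := by
      rw [h]
      rfl
    rw [← Equiv.Perm.iterate_eq_pow] at h2
    exact h2
  exact Function.minimalPeriod_pos_of_mem_periodicPts (Function.mk_mem_periodicPts hn h1)

theorem orb_aux {X H : Type} [Fintype X] [AddCommGroup H] (σ : Equiv.Perm X) (φ : X → H) (D : ℕ)
    (hφ : ∀ x, φ (σ x) = φ x) (hD : ∀ x, φ x = 0 ∨ D ∣ Function.minimalPeriod σ x) (n : ℕ) :
    ∀ U : Finset X, U.card ≤ n → (∀ x ∈ U, σ x ∈ U) → ∃ h : H, ∑ x ∈ U, φ x = D • h := by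
  classical
  induction n with
  | zero =>
    intro U hU _
    have h0 : U = ∅ := Finset.card_eq_zero.mp (Nat.le_zero.mp hU)
    refine ⟨0, ?_⟩
    rw [h0, Finset.sum_empty, smul_zero]
  | succ n ih =>
    intro U hU hst
    rcases U.eq_empty_or_nonempty with h0 | ⟨x, hx⟩
    · refine ⟨0, ?_⟩
      rw [h0, Finset.sum_empty, smul_zero]
    · have hm := per_pos σ x
      obtain ⟨m, hmdef⟩ : ∃ m, m = Function.minimalPeriod σ x := ⟨_, rfl⟩
      rw [← hmdef] at hm
      have hmem : ∀ i : ℕ, σ^[i] x ∈ U := by
        intro i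
        induction i with
        | zero => exact hx
        | succ i ihi =>
          rw [Function.iterate_succ_apply']
          exact hst _ ihi
      have hfix : σ^[m] x = x := by
        rw [hmdef]
        exact Function.iterate_minimalPeriod
      have hinj : ∀ i < m, ∀ j < m, σ^[i] x = σ^[j] x → i = j := by
        intro i hi j hj hij
        have h1 := Function.iterate_injOn_Iio_minimalPeriod (f := σ) (x := x)
        rw [← hmdef] at h1
        exact h1 (Set.mem_Iio.mpr hi) (Set.mem_Iio.mpr hj) hij
      obtain ⟨O, hO⟩ : ∃ O : Finset X, O = (Finset.range m).image (fun i => σ^[i] x) := ⟨_, rfl⟩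
      have hOU : O ⊆ U := by
        intro y hy
        rw [hO, Finset.mem_image] at hy
        obtain ⟨i, _, rfl⟩ := hy
        exact hmem i
      have hxO : x ∈ O := by
        rw [hO, Finset.mem_image]
        exact ⟨0, Finset.mem_range.mpr hm, rfl⟩
      have hcard : (U \ O).card ≤ n := by
        have h1 : (U \ O).card < U.card := by
          refine Finset.card_lt_card ⟨Finset.sdiff_subset, ?_⟩
          intro hc
          have h2 := hc hx
          rw [Finset.mem_sdiff] at h2
          exact h2.2 hxO
        omega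
      have hst' : ∀ y ∈ U \ O, σ y ∈ U \ O := by
        intro y hy
        rw [Finset.mem_sdiff] at hy ⊢
        refine ⟨hst y hy.1, ?_⟩
        intro hc
        apply hy.2
        rw [hO, Finset.mem_image] at hc ⊢
        obtain ⟨i, hi, hiy⟩ := hc
        rw [Finset.mem_range] at hi
        rcases Nat.eq_zero_or_pos i with h0 | hpos
        · refine ⟨m - 1, Finset.mem_range.mpr (by omega), ?_⟩
          apply σ.injective
          have h1 : m - 1 + 1 = m := by omega
          have h2 : σ (σ^[m - 1] x) = σ^[m - 1 + 1] x :=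
            (Function.iterate_succ_apply' σ (m - 1) x).symm
          show σ (σ^[m - 1] x) = σ y
          rw [h2, h1, hfix, ← hiy, h0]
          rfl
        · refine ⟨i - 1, Finset.mem_range.mpr (by omega), ?_⟩
          apply σ.injective
          have h1 : i - 1 + 1 = i := by omega
          have h2 : σ (σ^[i - 1] x) = σ^[i - 1 + 1] x :=
            (Function.iterate_succ_apply' σ (i - 1) x).symm
          show σ (σ^[i - 1] x) = σ y
          rw [h2, h1]
          exact hiy
      obtain ⟨h, hh⟩ := ih (U \ O) hcard hst'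
      have hsumO : ∑ y ∈ O, φ y = m • φ x := by
        rw [hO, Finset.sum_image]
        · rw [Finset.sum_congr rfl (fun i _ => phi_iter σ φ hφ x i), Finset.sum_const,
            Finset.card_range]
        · intro i hi j hj hij
          have hi' : i < m := by simpa using hi
          have hj' : j < m := by simpa using hj
          exact hinj i hi' j hj' hij
      have hsum : ∑ y ∈ U, φ y = ∑ y ∈ U \ O, φ y + ∑ y ∈ O, φ y :=
        (Finset.sum_sdiff hOU).symm
      rcases hD x with hz | ⟨q, hq⟩
      · refine ⟨h, ?_⟩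
        rw [hsum, hh, hsumO, hz, smul_zero, add_zero]
      · refine ⟨h + q • φ x, ?_⟩
        rw [hsum, hh, hsumO, smul_add, hmdef, hq, mul_smul]

/-- **ORB** -/
theorem orb : OrbStmt := by
  intro X H _ _ σ φ D hφ hD
  exact orb_aux σ φ D hφ hD (Finset.univ : Finset X).card Finset.univ le_rfl
    (fun x _ => Finset.mem_univ _)

end Pool.Agent.TFJ.H65
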